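import Pool.Agent.J6H72.ZL.Core

/-!
# Relations between `ζ(2)ζ(3), ζ(2), ζ(3), ζ(4), ζ(5)` with very well approximable coefficients

The question asks for rational numbers `a, b, c, d` with `ζ(2)ζ(3) = a ζ(2) + b ζ(3) + c ζ(4) + d ζ(5)`. Here the
coefficients are taken from any set `V` of real numbers which is approximable to a certain finite order `w`: any
finitely many elements `x` of `V` have simultaneous rational approximations `|q x - p| < q ^ (-w)` with arbitrarily
large `q`. Examples of such sets are, besides `ℚ`,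

* for any sequence `Q_n → ∞` of integers the set of all `x` whose distances to the fractions of denominator `Q_n` are
  so small for all large `n` (this set is in general not a field, and not countable);
* for any sequence `T_n → ∞` the field of all `x` which for one `A` and all `E` have for all large `n` rational
  approximations of height at most `exp (A T_n)` with an error at most `exp (-E T_n)`.

Theorem. The solutions `(a, b, c, d)` of the equation with coordinates in `V` lie on one line of `ℝ⁴`. The relations with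
coefficients in `V` between `ζ(2)ζ(3), ζ(2), ζ(3), ζ(4)` and `r` arbitrary real numbers span a real vector space of
dimension at most `r + 1`; for `r = 0` they are multiples of one vector `(q, a, b, c)`, and `b ≠ 0`, `5 q a + 2 b c ≠ 0`.

The proof replaces the coefficients by integers and uses the starting theorem on near relations with integral
coefficients (`NearRelations`); the rank of a real matrix does not exceed the ranks of matrices close to it.
-/

set_option autoImplicit false

namespace Pool.Agent.Results.MP_524521_nt.ApproximableCoefficients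

open Filter Module

/-- `ζ(s) = ∑_{k ≥ 1} k^(-s)`. -/
noncomputable def zeta (s : ℕ) : ℝ := ∑' k : ℕ, 1 / ((k : ℝ) + 1) ^ s

/-- Any finitely many elements `x` of `V` have simultaneous rational approximations `|q x - p| < q ^ (-w)` with
arbitrarily large `q`. -/
def Approximable (V : Set ℝ) (w : ℕ) : Prop :=
  ∀ s : Finset ℝ, (∀ x ∈ s, x ∈ V) → ∀ q₀ : ℕ, ∃ q : ℕ, q₀ ≤ q ∧ 1 ≤ q ∧
    ∀ x ∈ s, ∃ p : ℤ, |(q : ℝ) * x - p| < 1 / (q : ℝ) ^ w

/-- The real vectors `((q, a, b, c), (e_1, …, e_r))`. -/
abbrev Vec (r : ℕ) : Type := (Fin 4 → ℝ) × (Fin r → ℝ)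

/-- `q ζ(2) ζ(3) - a ζ(2) - b ζ(3) - c ζ(4) - e_1 z_1 - … - e_r z_r` for `v = ((q, a, b, c), e)`. -/
noncomputable def value {r : ℕ} (z : Fin r → ℝ) (v : Vec r) : ℝ :=
  v.1 0 * (zeta 2 * zeta 3) - v.1 1 * zeta 2 - v.1 2 * zeta 3 - v.1 3 * zeta 4 - ∑ i, v.2 i * z i

/-- The relations between `ζ(2)ζ(3), ζ(2), ζ(3), ζ(4), z_1, …, z_r` with coefficients in `V`. -/
def relations {r : ℕ} (V : Set ℝ) (z : Fin r → ℝ) : Set (Vec r) :=
  {v | (∀ i, v.1 i ∈ V) ∧ (∀ i, v.2 i ∈ V) ∧ value z v = 0}

/-- The solutions `(a, b, c, d)`, with coordinates in `V`, of the equation of the problem. -/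
def solutions (V : Set ℝ) : Set (Fin 4 → ℝ) :=
  {x | (∀ i, x i ∈ V) ∧ zeta 2 * zeta 3 = x 0 * zeta 2 + x 1 * zeta 3 + x 2 * zeta 4 + x 3 * zeta 5}

/-- The real numbers `x` such that, for all large `n`, `Q n * x` has a distance less than `(Q n) ^ (-w)` to the
integers. -/
def Close (Q : ℕ → ℕ) (w : ℕ) : Set ℝ :=
  {x | ∀ᶠ n in atTop, ∃ p : ℤ, |(Q n : ℝ) * x - p| < 1 / (Q n : ℝ) ^ w}

/-- For one `A ≥ 0` and all `E`, for all large `n` the number `x` has a rational approximation `p / q` with
`|p|, |q| ≤ exp (A T_n)` and with an error at most `exp (- E T_n)`. -/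
def WellApproximable (T : ℕ → ℝ) (x : ℝ) : Prop :=
  ∃ A : ℝ, 0 ≤ A ∧ ∀ E : ℝ, ∀ᶠ n in atTop, ∃ p q : ℤ, q ≠ 0 ∧ |(p : ℝ)| ≤ Real.exp (A * T n) ∧
    |(q : ℝ)| ≤ Real.exp (A * T n) ∧ |x - p / q| ≤ Real.exp (-(E * T n))

/-! ### proofs -/

theorem finrank_le {E : Type*} [AddCommGroup E] [Module ℝ E] [FiniteDimensional ℝ E] (S : Set E) (n : ℕ)
    (h : ∀ v : Fin (n + 1) → E, (∀ j, v j ∈ S) → ¬ LinearIndependent ℝ v) : finrank ℝ (Submodule.span ℝ S) ≤ n := by
  by_contra hcon
  push Not at hcon
  obtain ⟨f, hf, -, hli⟩ := Submodule.exists_fun_fin_finrank_span_eq ℝ S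
  have hle : n + 1 ≤ finrank ℝ (Submodule.span ℝ S) := hcon
  exact h (fun j => f (Fin.castLE hle j)) (fun j => hf _) (hli.comp _ (Fin.castLE_injective hle))

theorem approximable_insert {V : Set ℝ} {w : ℕ} (h : Approximable V w) : Approximable (insert 1 V) w := by
  classical
  intro s hs q₀
  obtain ⟨q, h1, h2, h3⟩ := h (s.filter (fun x => x ∈ V)) (fun x hx => (Finset.mem_filter.1 hx).2) q₀
  have hq : (0 : ℝ) < q := by exact_mod_cast h2
  refine ⟨q, h1, h2, fun x hx => ?_⟩
  rcases hs x hx with h4 | h4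
  · refine ⟨q, ?_⟩
    rw [h4, mul_one, Int.cast_natCast, sub_self, abs_zero]
    positivity
  · exact h3 x (Finset.mem_filter.2 ⟨hx, h4⟩)

theorem close (Q : ℕ → ℕ) (hQ : Tendsto Q atTop atTop) (w : ℕ) : Approximable (Close Q w) w := by
  intro s hs q₀
  have h1 : ∀ᶠ n in atTop, ∀ x ∈ s, ∃ p : ℤ, |(Q n : ℝ) * x - p| < 1 / (Q n : ℝ) ^ w := by
    rw [Filter.eventually_all_finset]
    exact fun x hx => hs x hx
  obtain ⟨n, h2, h3, h4⟩ := (h1.and ((hQ.eventually_ge_atTop q₀).and (hQ.eventually_ge_atTop 1))).exists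
  exact ⟨Q n, h3, h4, h2⟩

/-- **Relations with very well approximable coefficients.** -/
theorem result :
    -- examples of approximable sets
    ((∀ (Q : ℕ → ℕ) (w : ℕ), Tendsto Q atTop atTop → Approximable (Close Q w) w) ∧
      ∀ T : ℕ → ℝ, Tendsto T atTop atTop →
        ∃ F : Subfield ℝ, (∀ x : ℝ, x ∈ F ↔ WellApproximable T x) ∧ ∀ w : ℕ, Approximable (F : Set ℝ) w) ∧
    -- the solutions of the equation of the problem are on one line
    (∃ w : ℕ, ∀ V : Set ℝ, Approximable V w → ∃ P D : Fin 4 → ℝ, ∀ x ∈ solutions V, ∃ t : ℝ, x = P + t • D) ∧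
    -- the relations between `ζ(2)ζ(3), ζ(2), ζ(3), ζ(4)` and arbitrary numbers
    (∀ r : ℕ, ∃ w : ℕ, ∀ V : Set ℝ, Approximable V w → ∀ z : Fin r → ℝ,
      finrank ℝ (Submodule.span ℝ (relations V z)) ≤ r + 1) ∧
    -- the relations between `ζ(2)ζ(3), ζ(2), ζ(3), ζ(4)`
    ∃ w : ℕ, ∀ V : Set ℝ, Approximable V w → ∀ z : Fin 0 → ℝ, ∀ v ∈ relations V z, v ≠ 0 →
      v.1 2 ≠ 0 ∧ 5 * v.1 0 * v.1 1 + 2 * v.1 2 * v.1 3 ≠ 0 := by
  refine ⟨⟨fun Q w hQ => close Q hQ w, fun T hT => ⟨Pool.Agent.Q163.LE.ApField T hT, fun x => Iff.rfl,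
    fun w s hs q₀ => Pool.Agent.Q163.LE.sim_apField T hT s hs w q₀⟩⟩, ?_, fun r => ?_, ?_⟩
  · obtain ⟨w, h⟩ := Pool.Agent.J6H72.ZL.dependent 1
    refine ⟨w, fun V hV => ?_⟩
    have key : ∀ x ∈ solutions V, Pool.Agent.J6H72.ZL.In (insert 1 V) (((![1, x 0, x 1, x 2] : Fin 4 → ℝ), (fun _ => x 3)) : Vec 1) ∧
        Pool.Agent.J6H72.ZL.rval (fun _ : Fin 1 => zeta 5) (((![1, x 0, x 1, x 2] : Fin 4 → ℝ), (fun _ => x 3)) : Vec 1) = 0 := by
      intro x hx
      refine ⟨⟨fun i => ?_, fun i => Set.mem_insert_of_mem _ (hx.1 3)⟩, ?_⟩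
      · fin_cases i
        · exact Set.mem_insert _ _
        · exact Set.mem_insert_of_mem _ (hx.1 0)
        · exact Set.mem_insert_of_mem _ (hx.1 1)
        · exact Set.mem_insert_of_mem _ (hx.1 2)
      · have h2 := hx.2
        unfold Pool.Agent.J6H72.ZL.rval
        simp only [Matrix.cons_val_zero, Matrix.cons_val_one, Matrix.cons_val, Finset.univ_unique, Finset.sum_const,
          Finset.card_singleton, one_smul]
        change 1 * (zeta 2 * zeta 3) - x 0 * zeta 2 - x 1 * zeta 3 - x 2 * zeta 4 - x 3 * zeta 5 = 0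
        linarith
    by_cases hex : ∃ P ∈ solutions V, ∃ P' ∈ solutions V, P ≠ P'
    · obtain ⟨P, hP, P', hP', hne⟩ := hex
      refine ⟨P, P' - P, fun x hx => ?_⟩
      have hdep := h (insert 1 V) (approximable_insert hV) (fun _ => zeta 5)
        ![((![1, P 0, P 1, P 2] : Fin 4 → ℝ), fun _ => P 3), ((![1, P' 0, P' 1, P' 2] : Fin 4 → ℝ), fun _ => P' 3),
          ((![1, x 0, x 1, x 2] : Fin 4 → ℝ), fun _ => x 3)]
        (fun j => by
          fin_cases j
          · exact (key P hP).1
          · exact (key P' hP').1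
          · exact (key x hx).1)
        (fun j => by
          fin_cases j
          · exact (key P hP).2
          · exact (key P' hP').2
          · exact (key x hx).2)
      rw [Fintype.not_linearIndependent_iff] at hdep
      obtain ⟨g, hg, i, hi⟩ := hdep
      rw [Fin.sum_univ_three] at hg
      simp only [Matrix.cons_val_zero, Matrix.cons_val_one, Matrix.cons_val] at hg
      have g1 := congrArg Prod.fst hg
      have g2 := congrFun (congrArg Prod.snd hg) 0
      have a0 := congrFun g1 0
      have a1 := congrFun g1 1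
      have a2 := congrFun g1 2
      have a3 := congrFun g1 3
      simp only [Prod.fst_add, Prod.smul_fst, Prod.snd_add, Prod.smul_snd, Pi.add_apply, Pi.smul_apply, smul_eq_mul,
        Matrix.cons_val_zero, Matrix.cons_val_one, Matrix.cons_val, Prod.fst_zero, Prod.snd_zero, Pi.zero_apply, mul_one]
        at a0 a1 a2 a3 g2
      have hall : ∀ k : Fin 4, g 0 * P k + g 1 * P' k + g 2 * x k = 0 := by
        intro k
        fin_cases k
        · exact a1
        · exact a2
        · exact a3
        · exact g2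
      have hg2 : g 2 ≠ 0 := by
        intro h0
        have h1 : g 1 = 0 := by
          by_contra hg1
          apply hne
          funext k
          have h3 := hall k
          rw [h0] at h3 a0
          have h4 : g 0 = - g 1 := by linarith
          rw [h4] at h3
          have h5 : g 1 * (P' k - P k) = 0 := by linarith
          have h6 := (mul_eq_zero.1 h5).resolve_left hg1
          linarith
        have h2 : g 0 = 0 := by linarith
        fin_cases i
        · exact hi h2
        · exact hi h1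
        · exact hi h0
      refine ⟨-(g 1 / g 2), funext fun k => ?_⟩
      have h3 := hall k
      have h4 : g 0 = - g 1 - g 2 := by linarith
      rw [h4] at h3
      simp only [Pi.add_apply, Pi.smul_apply, Pi.sub_apply, smul_eq_mul]
      field_simp
      linarith
    · push Not at hex
      by_cases hne : (solutions V).Nonempty
      · obtain ⟨P, hP⟩ := hne
        exact ⟨P, 0, fun x hx => ⟨0, by rw [hex P hP x hx]; simp⟩⟩
      · exact ⟨0, 0, fun x hx => absurd ⟨x, hx⟩ hne⟩
  · obtain ⟨w, h⟩ := Pool.Agent.J6H72.ZL.dependent r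
    exact ⟨w, fun V hV z => finrank_le _ _ fun v hv => h V hV z v (fun j => ⟨(hv j).1, (hv j).2.1⟩) fun j => (hv j).2.2⟩
  · obtain ⟨w, h⟩ := Pool.Agent.J6H72.ZL.shape
    exact ⟨w, fun V hV z v hv hv0 => h V hV z v ⟨hv.1, hv.2.1⟩ hv.2.2 hv0⟩

end Pool.Agent.Results.MP_524521_nt.ApproximableCoefficients
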