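import Pool.Agent.J6H85.ZP.Rel
import Pool.Agent.J6H54.LG.Appr
import Pool.Agent.J6H54.LF.Joint
import Pool.Agent.J6H54.LF.Liou

set_option autoImplicit false

/-!
# Near relations between `ζ(2)ζ(3), ζ(2), ζ(3), ζ(4), ζ(5)` against tails of zeta integrals

For an integer `k ≥ 2` and a rational `x > 0` let `R_k(x)` be the number
`(-1)^k / k! * ∫ (∑_j ω^j log t_j)^k exp (-∑_j t_j) dt`, `ω = exp (2 π i / k)`, the integral being over
the points of the positive octant of dimension `k` with `max t_j ≥ x` (over the whole octant one gets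
`ζ(k)`), and let `R_1(x) = ∫_x^∞ exp (-t) / √t dt` (over the whole half line one gets `√π`). The numbers
`R_k(x)` with `k = 1, 3, 5` or `k` even are called tails.

A real number `θ` is near at the scale `H` (with parameters `D`, `C`) if `|P(e, θ)| ≤ H^(-C)` for some
nonzero polynomial `P` with integer coefficients of absolute value at most `H`, of degree at most `D` in
both variables. If `θ` is within `H^(-C)` of an algebraic number of degree at most `D` and height at most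
`H` then this is so (with another `C`).

Let `S` be a finite set of tails, `D, D'` natural numbers. There is `C` such that for EVERY `H ≥ 2`:

(1) if some nonzero polynomial of degree at most `D'` with integer coefficients of absolute value at most
`H` is at most `H^(-C)` in absolute value at `(e, ζ(2), ζ(3), ζ(5))`, then at most two of the tails in `S`
are near at the scale `H`;

(2) in particular, if there are integers `q, a, b, c, d`, not all zero, of absolute value at most `H`,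
with `|q ζ(2)ζ(3) - a ζ(2) - b ζ(3) - c ζ(4) - d ζ(5)| ≤ H^(-C)`, then at most two of the tails in `S`
are near at the scale `H`; at most two of them are within `H^(-C)` of algebraic numbers of degree at
most `D` and height at most `H`.

(3) So if three different tails are, for some `D` and every `C`, near at a common scale `H ≥ 2`
(depending on `C`), for example if they are algebraic over `ℚ(e)`, then `e, ζ(2), ζ(3), ζ(5)` are
algebraically independent, and the answer to the question is that `ζ(2)ζ(3)` is not a rational linear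
combination of `ζ(2), ζ(3), ζ(4), ζ(5)`.

(4) Let `F` be a simultaneously Liouville field of real numbers (for example the one generated by the
numbers `∑ a_n 10^(-n!)` with bounded sequences of integers `a_n`). If three different tails `R_k(x)`,
`k ≥ 2`, are algebraic over `F(e)`, then `e, ζ(2), ζ(3), ζ(5)` are algebraically independent over `F`,
and `ζ(2)ζ(3)` is not a linear combination of `ζ(2), ζ(3), ζ(4), ζ(5)` with coefficients in `F`.
-/

namespace Pool.Agent.Results.MP_524521_nt.RelationsVersusTails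

open Set MeasureTheory
open Pool.Agent.J6H54.LG (Near Appr Ok Kt Tt Sc U R0 ph near_of_appr)
open Pool.Agent.J6H85.ZP
open Pool.Agent.R352.E (clF mem_clF subset_clF)

/-- the zeta value `ζ(k) = ∑ 1 / (n+1)^k` -/
noncomputable def zeta (k : ℕ) : ℝ := ∑' n : ℕ, 1 / ((n : ℝ) + 1) ^ k

/-- `ω = exp (2 π i / k)` -/
noncomputable def root (k : ℕ) : ℂ := Complex.exp (2 * Real.pi * Complex.I / k)

/-- `(∑_j ω^j log t_j)^k exp (-∑_j t_j)` -/
noncomputable def integrand (k : ℕ) (t : Fin k → ℝ) : ℂ :=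
  (∑ j : Fin k, root k ^ (j : ℕ) * (Real.log (t j) : ℂ)) ^ k * ((Real.exp (-∑ j, t j) : ℝ) : ℂ)

/-- the positive octant without the cube `(0, x)^k` -/
def rest (k : ℕ) (x : ℝ) : Set (Fin k → ℝ) := {t | (∀ j, 0 < t j) ∧ ∃ j, x ≤ t j}

/-- the integral over the rest -/
noncomputable def tailIntegral (k : ℕ) (x : ℝ) : ℂ :=
  (-1) ^ k / (k.factorial : ℂ) * ∫ t in rest k x, integrand k t

/-- the tail `R_k(x)`, as a real number; `R_1(x) = ∫_x^∞ exp (-t) / √t dt` -/
noncomputable def R (p : ℕ × ℚ) : ℝ :=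
  if p.1 = 1 then ∫ t in Ioi (p.2 : ℝ), Real.exp (-t) / √t else (tailIntegral p.1 p.2).re

/-- the names `(k, x)` of the tails -/
def Names : Set (ℕ × ℚ) := {p | (p.1 = 1 ∨ p.1 = 3 ∨ p.1 = 5 ∨ Even p.1) ∧ 1 ≤ p.1 ∧ 0 < p.2}

/-- `e, ζ(2), ζ(3), ζ(5)` -/
noncomputable def numbers : Fin 4 → ℝ := ![Real.exp 1, zeta 2, zeta 3, zeta 5]

/-- `q ζ(2)ζ(3) - a ζ(2) - b ζ(3) - c ζ(4) - d ζ(5)` for `v = (q, a, b, c, d)` -/
noncomputable def value (v : Fin 5 → ℤ) : ℝ :=
  v 0 * (zeta 2 * zeta 3) - v 1 * zeta 2 - v 2 * zeta 3 - v 3 * zeta 4 - v 4 * zeta 5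

/-- a small nonzero integer vector with small value -/
def Small (H ε : ℝ) : Prop := ∃ v : Fin 5 → ℤ, v ≠ 0 ∧ (∀ i, |(v i : ℝ)| ≤ H) ∧ |value v| ≤ ε

/-- `ζ(2)ζ(3)` is not a combination of `ζ(2), …, ζ(5)` with coefficients in `F` -/
def Outside (F : Subfield ℝ) : Prop := ¬ ∃ a ∈ F, ∃ b ∈ F, ∃ c ∈ F, ∃ d ∈ F,
  zeta 2 * zeta 3 = a * zeta 2 + b * zeta 3 + c * zeta 4 + d * zeta 5

/-- `x` is algebraic over `F(e)` -/
def OverE (F : Subfield ℝ) (x : ℝ) : Prop :=
  IsAlgebraic (IntermediateField.adjoin F {Real.exp 1}) x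

/-- the field generated by all numbers `∑ a_n 10^(-n!)` with bounded sequences of integers `a_n` -/
noncomputable def liouvilleField : Subfield ℝ := Subfield.closure {x : ℝ | ∃ (a : ℕ → ℤ) (B : ℤ),
  (∀ n, |a n| ≤ B) ∧ x = ∑' n, (a n : ℝ) / 10 ^ n.factorial}

/-! ### the tails -/

theorem rest_eq (k : ℕ) (x : ℝ) :
    rest k x = Pool.Agent.R352.Q.cube k (Ioi 0) \ Pool.Agent.R352.Q.cube k (Ioo 0 x) := by
  ext t
  simp only [rest, Pool.Agent.R352.Q.cube, mem_sdiff, mem_univ_pi, mem_Ioi, mem_Ioo]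
  constructor
  · rintro ⟨h1, j, h2⟩
    exact ⟨h1, fun h => absurd (h j).2 (not_lt.2 h2)⟩
  · rintro ⟨h1, h2⟩
    push Not at h2
    obtain ⟨j, hj⟩ := h2
    exact ⟨h1, j, hj (h1 j)⟩

theorem R_eq {k : ℕ} (hk : 2 ≤ k) {x : ℚ} (hx : 0 < x) : R (k, x) = Pool.Agent.R352.Q.Rk k x := by
  have hx' : (0 : ℝ) < x := by exact_mod_cast hx
  have h : tailIntegral k x = Pool.Agent.R352.Q.NI k
      (Pool.Agent.R352.Q.cube k (Ioi 0) \ Pool.Agent.R352.Q.cube k (Ioo 0 x)) := by
    rw [tailIntegral, rest_eq]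
    rfl
  have h2 : tailIntegral k x = (Pool.Agent.R352.Q.Rk k x : ℂ) := by
    rw [h, Pool.Agent.R352.Q.NI_diff, Pool.Agent.R352.Q.NI_full hk, Pool.Agent.R352.Q.NI_box hk hx',
      Pool.Agent.R352.Q.Rk]
    push_cast
    rfl
  have h3 : k ≠ 1 := by omega
  simp only [R, if_neg h3]
  rw [h2, Complex.ofReal_re]

/-- the code -/
def code (p : ℕ × ℚ) : ℕ × ℚ × ℚ := if p.1 = 1 then (0, 1 / 2, p.2) else (p.1 - 1, 0, p.2)

theorem code_inj {p p' : ℕ × ℚ} (hp : 1 ≤ p.1) (hp' : 1 ≤ p'.1) (h : code p = code p') :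
    p = p' := by
  obtain ⟨k, x⟩ := p
  obtain ⟨k', x'⟩ := p'
  simp only at hp hp'
  by_cases h1 : k = 1 <;> by_cases h2 : k' = 1
  · subst h1 h2
    simpa [code] using h
  · have h3 := congrArg (fun q => q.2.1) h
    simp [code, h1, h2] at h3
  · have h3 := congrArg (fun q => q.2.1) h
    simp [code, h1, h2] at h3
  · simp only [code, h1, h2, if_false, Prod.mk.injEq, true_and] at h
    rw [h.2, show k = k' by omega]

theorem code_ok {p : ℕ × ℚ} (hp : p ∈ Names) : Ok (code p) := by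
  obtain ⟨k, x⟩ := p
  obtain ⟨-, h1, h2⟩ := hp
  simp only at h1 h2
  by_cases h : k = 1
  · simp only [code, h, if_true]
    exact ⟨by norm_num, by norm_num, h2, Or.inr rfl⟩
  · simp only [code, h, if_false]
    exact ⟨le_rfl, one_pos, h2, Or.inl rfl⟩

theorem Tt_code {p : ℕ × ℚ} (hp : p ∈ Names) : Tt (code p) = R p := by
  obtain ⟨k, x⟩ := p
  obtain ⟨-, h1, h2⟩ := hp
  simp only at h1 h2
  by_cases h : k = 1
  · subst h
    have hx' : (0 : ℝ) < x := by exact_mod_cast h2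
    simp only [code, if_true, Tt, R]
    rw [if_neg (by norm_num)]
    change ∫ t in Ioi (x : ℝ), _ = _
    refine setIntegral_congr_fun measurableSet_Ioi fun t ht => ?_
    have ht' : 0 < t := hx'.trans ht
    have e : (((1 / 2 : ℚ)) : ℝ) - 1 = -(1 / 2) := by norm_num
    rw [e, Real.rpow_neg ht'.le, ← Real.sqrt_eq_rpow]
    ring
  · have h3 : k - 1 ≠ 0 := by omega
    rw [R_eq (by omega) h2]
    simp only [code, h, if_false, Tt, if_true, h3]
    rw [Nat.sub_add_cancel h1]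

/-! ### the constants -/

theorem zeta_two : zeta 2 = Real.pi ^ 2 / 6 := by
  have h := ((hasSum_nat_add_iff' 1).2 hasSum_zeta_two).tsum_eq
  simp only [Finset.sum_range_one, Nat.cast_zero, ne_eq, OfNat.ofNat_ne_zero, not_false_eq_true,
    zero_pow, div_zero, sub_zero, Nat.cast_add, Nat.cast_one] at h
  exact h

theorem zeta_four : zeta 4 = 2 / 5 * zeta 2 ^ 2 := by
  have h := ((hasSum_nat_add_iff' 1).2 hasSum_zeta_four).tsum_eq
  simp only [Finset.sum_range_one, Nat.cast_zero, ne_eq, OfNat.ofNat_ne_zero, not_false_eq_true,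
    zero_pow, div_zero, sub_zero, Nat.cast_add, Nat.cast_one] at h
  have h' : zeta 4 = Real.pi ^ 4 / 90 := h
  rw [h', zeta_two]
  ring

/-- `ζ(2), ζ(3), ζ(5)` -/
noncomputable def y : Fin 3 → ℝ := ![zeta 2, zeta 3, zeta 5]

theorem pi_mem {S : Set ℝ} (h : zeta 2 ∈ clF S) : Real.pi ∈ clF S := by
  refine Pool.Agent.R352.E.of_pow (n := 2) (by norm_num) ?_
  have h2 : Real.pi ^ 2 = 6 * zeta 2 := by
    rw [zeta_two]
    ring
  rw [h2]
  exact (clF S).mul_mem (ofNat_mem _ 6) h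

theorem zeta_mem {S : Set ℝ} (h : ∀ i, y i ∈ clF S) {k : ℕ} (hk : k = 3 ∨ k = 5 ∨ Even k)
    (h2 : 2 ≤ k) : zeta k ∈ clF S := by
  rcases hk with rfl | rfl | ⟨j, rfl⟩
  · exact h 1
  · exact h 2
  · have h3 : j + j = 2 * j := by ring
    rw [h3]
    exact Pool.Agent.R352.E.zt_even (pi_mem (h 0)) j (by omega)

theorem Kt_code {p : ℕ × ℚ} (hp : p ∈ Names) : Kt (code p) ∈ clF ({Real.exp 1} ∪ range y) := by
  have hy : ∀ i, y i ∈ clF ({Real.exp 1} ∪ range y) := fun i => subset_clF _ (Or.inr ⟨i, rfl⟩)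
  obtain ⟨k, x⟩ := p
  obtain ⟨h0, h1, h2⟩ := hp
  simp only at h0 h1 h2
  by_cases h : k = 1
  · simp only [code, h, if_true, Kt]
    rw [if_neg (by norm_num)]
    refine Pool.Agent.R352.E.of_pow (n := 2) (by norm_num) ?_
    have e : (((1 / 2 : ℚ)) : ℝ) = 1 / 2 := by norm_num
    rw [e, Real.Gamma_one_half_eq, Real.sq_sqrt Real.pi_pos.le]
    exact pi_mem (hy 0)
  · have h3 : k - 1 ≠ 0 := by omega
    simp only [code, h, if_false, Kt, if_true, h3]
    rw [Nat.sub_add_cancel h1]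
    refine zeta_mem hy ?_ (by omega)
    rcases h0 with h0 | h0
    · exact absurd h0 h
    · exact h0

/-! ### polynomials -/

/-- exponents -/
def M : Fin 5 → Fin 4 → ℕ := ![![0, 1, 1, 0], ![0, 1, 0, 0], ![0, 0, 1, 0], ![0, 2, 0, 0], ![0, 0, 0, 1]]

theorem M_inj : Function.Injective M := by decide

/-- exponents -/
noncomputable def m (i : Fin 5) : Fin 4 →₀ ℕ := Finsupp.equivFunOnFinite.symm (M i)

theorem m_inj : Function.Injective m := fun _ _ h => M_inj (Finsupp.equivFunOnFinite.symm.injective h)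

/-- `q X Y - a X - b Y - c X² - d Z` -/
noncomputable def poly {A : Type} [CommRing A] (c : Fin 5 → A) : MvPolynomial (Fin 4) A :=
  ∑ i, MvPolynomial.monomial (m i) (c i)

theorem coeff_poly {A : Type} [CommRing A] (c : Fin 5 → A) (i : Fin 5) :
    (poly c).coeff (m i) = c i := by
  classical
  rw [poly, MvPolynomial.coeff_sum]
  simp only [MvPolynomial.coeff_monomial]
  rw [Finset.sum_eq_single i]
  · simp
  · intro j _ hj
    rw [if_neg]
    exact fun h0 => hj (m_inj h0)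
  · intro h0
    exact absurd (Finset.mem_univ _) h0

theorem coeff_poly' {A : Type} [CommRing A] (c : Fin 5 → A) (s : Fin 4 →₀ ℕ)
    (hs : ∀ i, m i ≠ s) : (poly c).coeff s = 0 := by
  classical
  rw [poly, MvPolynomial.coeff_sum]
  simp only [MvPolynomial.coeff_monomial]
  exact Finset.sum_eq_zero fun i _ => if_neg (hs i)

theorem aeval_poly {A : Type} [CommRing A] [Algebra A ℝ] (c : Fin 5 → A) (z : Fin 4 → ℝ) :
    MvPolynomial.aeval z (poly c) = algebraMap A ℝ (c 0) * (z 1 * z 2) + algebraMap A ℝ (c 1) * z 1 +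
      algebraMap A ℝ (c 2) * z 2 + algebraMap A ℝ (c 3) * z 1 ^ 2 + algebraMap A ℝ (c 4) * z 3 := by
  rw [poly, map_sum, Fin.sum_univ_five]
  simp only [MvPolynomial.aeval_monomial]
  simp only [Finsupp.prod_fintype _ _ (fun i => pow_zero _), Fin.prod_univ_four]
  simp [m, M]

theorem degree_poly {A : Type} [CommRing A] (c : Fin 5 → A) : (poly c).totalDegree ≤ 2 := by
  refine MvPolynomial.totalDegree_finsetSum_le fun i _ => ?_
  refine (MvPolynomial.totalDegree_monomial_le _ _).trans ?_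
  rw [Finsupp.sum_fintype _ _ (fun _ => rfl), Fin.sum_univ_four]
  fin_cases i <;> simp [m, M]

/-- the coefficients of the polynomial of a vector -/
def co (v : Fin 5 → ℤ) : Fin 5 → ℤ := ![5 * v 0, -(5 * v 1), -(5 * v 2), -(2 * v 3), -(5 * v 4)]

theorem aeval_co (v : Fin 5 → ℤ) : MvPolynomial.aeval numbers (poly (co v)) = 5 * value v := by
  rw [aeval_poly]
  simp only [co, numbers, value, zeta_four]
  simp
  ring

theorem co_ne {v : Fin 5 → ℤ} (hv : v ≠ 0) : poly (co v) ≠ 0 := by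
  intro h
  apply hv
  have h1 : ∀ i, co v i = 0 := fun i => by
    rw [← coeff_poly (co v) i, h, MvPolynomial.coeff_zero]
  funext i
  have h0 := h1 0
  have h2 := h1 1
  have h3 := h1 2
  have h4 := h1 3
  have h5 := h1 4
  simp [co] at h0 h2 h3 h4 h5
  fin_cases i
  · exact h0
  · exact h2
  · exact h3
  · exact h4
  · exact h5

theorem rel_of_small {H ε : ℝ} (h : Small H ε) : RelNear 2 (5 * H) (5 * ε) numbers := by
  obtain ⟨v, hv, hH, hε⟩ := h
  refine ⟨poly (co v), co_ne hv, degree_poly _, fun s => ?_, ?_⟩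
  · have hH0 : 0 ≤ H := (abs_nonneg _).trans (hH 0)
    by_cases hs : ∃ i, m i = s
    · obtain ⟨i, rfl⟩ := hs
      rw [coeff_poly]
      have key : ∀ (a : ℤ) (n : ℤ), |(n : ℝ)| ≤ 5 → |(a : ℝ)| ≤ H → |((n * a : ℤ) : ℝ)| ≤ 5 * H := by
        intro a n h1 h2
        push_cast
        rw [abs_mul]
        exact mul_le_mul h1 h2 (abs_nonneg _) (by norm_num)
      fin_cases i
      · exact key _ 5 (by norm_num) (hH 0)
      · have := key _ 5 (by norm_num) (hH 1)
        simpa [co] using this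
      · have := key _ 5 (by norm_num) (hH 2)
        simpa [co] using this
      · have := key _ 2 (by norm_num) (hH 3)
        simpa [co] using this
      · have := key _ 5 (by norm_num) (hH 4)
        simpa [co] using this
    · rw [coeff_poly' _ _ (fun i hi => hs ⟨i, hi⟩)]
      simp
      linarith
  · rw [aeval_co, abs_mul, abs_of_pos (by norm_num : (0 : ℝ) < 5)]
    exact mul_le_mul_of_nonneg_left hε (by norm_num)

/-! ### one scale -/

theorem names_image {T : Finset (ℕ × ℚ)} (hT : ∀ p ∈ T, p ∈ Names) :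
    (T.image code).card = T.card ∧
      ∀ c ∈ T.image code, Ok c ∧ Kt c ∈ clF ({Real.exp 1} ∪ range y) := by
  classical
  refine ⟨Finset.card_image_of_injOn fun a ha b hb h => code_inj (hT a ha).2.1 (hT b hb).2.1 h, ?_⟩
  intro c hc
  obtain ⟨p, hp, rfl⟩ := Finset.mem_image.1 hc
  exact ⟨code_ok (hT p hp), Kt_code (hT p hp)⟩

/-- the order of the four numbers -/
def pos : Fin 4 → Option (Fin 3) := ![none, some 0, some 1, some 2]

theorem pos_inj : Function.Injective pos := by decide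

theorem numbers_eq : numbers = (fun o : Option (Fin 3) => o.elim (Real.exp 1) y) ∘ pos := by
  funext i
  fin_cases i <;> rfl

theorem indep (h : ℕ → ℝ) [Sc h] {T : Finset (ℕ × ℚ)} (hT : ∀ p ∈ T, p ∈ Names) (hc : 3 ≤ T.card)
    {D : ℕ} (hn : ∀ p ∈ T, ∀ᶠ n in (U : Filter ℕ), Near D (h n) (1 / h n ^ n) (Real.exp 1) (R p)) :
    AlgebraicIndependent (R0 h) (ph h ∘ numbers) := by
  classical
  obtain ⟨h1, h2⟩ := names_image hT
  have h3 := indep_of_near h y (T.image code) h2 (by rw [h1]; exact hc) (D := D) (fun c hc => by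
    obtain ⟨p, hp, rfl⟩ := Finset.mem_image.1 hc
    rw [Tt_code (hT p hp)]
    exact hn p hp)
  have h4 := h3.comp pos pos_inj
  rw [numbers_eq]
  exact h4

/-- (1) -/
theorem one (S : Finset (ℕ × ℚ)) (hS : ∀ p ∈ S, p ∈ Names) (D D' : ℕ) : ∃ C : ℕ, ∀ H : ℝ, 2 ≤ H →
    RelNear D' H (1 / H ^ C) numbers → ∀ T ⊆ S,
      (∀ p ∈ T, Near D H (1 / H ^ C) (Real.exp 1) (R p)) → T.card ≤ 2 := by
  classical
  by_contra hcon
  push Not at hcon
  choose h h2 hrel T hTS hn hc using hcon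
  have : Sc h := ⟨h2⟩
  obtain ⟨T0, hT0⟩ : ∃ T0 : {T : Finset (ℕ × ℚ) // T ∈ S.powerset},
      ∀ᶠ n in (U : Filter ℕ), T n = T0 := by
    rw [← Ultrafilter.eventually_exists_iff]
    exact Filter.Eventually.of_forall fun n => ⟨⟨T n, Finset.mem_powerset.2 (hTS n)⟩, rfl⟩
  have hsub : T0.1 ⊆ S := Finset.mem_powerset.1 T0.2
  have hcard : 3 ≤ T0.1.card := by
    obtain ⟨n, hn⟩ := hT0.exists
    rw [← hn]
    exact hc n
  have hind := indep h (T := T0) (fun p hp => hS p (hsub hp)) hcard (D := D) (fun p hp => by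
    filter_upwards [hT0] with n hn'
    exact hn n p (by rw [hn']; exact hp))
  exact dep_of_rel h (D := D') (Filter.Eventually.of_forall fun n => hrel n) hind

theorem near_mono {D : ℕ} {H H' ε ε' a z : ℝ} (h1 : H ≤ H') (h2 : ε ≤ ε') (h : Near D H ε a z) :
    Near D H' ε' a z := by
  obtain ⟨c, hc, hH, hε⟩ := h
  exact ⟨c, hc, fun i j => (hH i j).trans h1, hε.trans h2⟩

theorem small_mono {H H' ε ε' : ℝ} (h1 : H ≤ H') (h2 : ε ≤ ε') (h : Small H ε) : Small H' ε' := by
  obtain ⟨v, hv, hH, hε⟩ := h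
  exact ⟨v, hv, fun i => (hH i).trans h1, hε.trans h2⟩

/-- (2) -/
theorem two (S : Finset (ℕ × ℚ)) (hS : ∀ p ∈ S, p ∈ Names) (D : ℕ) : ∃ C : ℕ, ∀ H : ℝ, 2 ≤ H →
    Small H (1 / H ^ C) → ∀ T ⊆ S,
      (∀ p ∈ T, Near D H (1 / H ^ C) (Real.exp 1) (R p)) → T.card ≤ 2 := by
  obtain ⟨C, hC⟩ := one S hS D 2
  refine ⟨4 * C + 3, fun H hH hs T hTS hT => ?_⟩
  have hH0 : 0 < H := by linarith
  have key : 5 * (1 / H ^ (4 * C + 3)) ≤ 1 / (5 * H) ^ C := by
    rw [mul_one_div, div_le_div_iff₀ (by positivity) (by positivity)]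
    have h5 : (5 : ℝ) ≤ H ^ 3 := by nlinarith [mul_le_mul hH hH (by norm_num) hH0.le]
    calc 5 * (5 * H) ^ C = 5 ^ (C + 1) * H ^ C := by
          rw [mul_pow]
          ring
      _ ≤ (H ^ 3) ^ (C + 1) * H ^ C := by gcongr
      _ = 1 * H ^ (4 * C + 3) := by ring
  have key2 : 1 / H ^ (4 * C + 3) ≤ 1 / (5 * H) ^ C := by
    have : 0 < 1 / H ^ (4 * C + 3) := by positivity
    linarith
  refine hC (5 * H) (by linarith) ?_ T hTS fun p hp => near_mono (by linarith) key2 (hT p hp)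
  obtain ⟨P, h1, h2, h3, h4⟩ := rel_of_small hs
  exact ⟨P, h1, h2, h3, h4.trans key⟩

theorem two_appr (S : Finset (ℕ × ℚ)) (hS : ∀ p ∈ S, p ∈ Names) (D : ℕ) : ∃ C : ℕ, ∀ H : ℝ,
    2 ≤ H → Small H (1 / H ^ C) → ∀ T ⊆ S,
      (∀ p ∈ T, Appr D H (1 / H ^ C) (R p)) → T.card ≤ 2 := by
  classical
  obtain ⟨C, hC⟩ := two S hS D
  choose B hB using fun θ => near_of_appr D (Real.exp 1) θ
  obtain ⟨A, hA⟩ : ∃ A, A = (S.image fun t => B (R t)).sup id := ⟨_, rfl⟩
  refine ⟨C + A, fun H hH hs T hTS hT => hC H hH ?_ T hTS fun p hp => ?_⟩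
  · have hH1 : 1 ≤ H := by linarith
    exact small_mono le_rfl
      (one_div_le_one_div_of_le (by positivity) (pow_le_pow_right₀ hH1 (by omega))) hs
  · have hH1 : 1 ≤ H := by linarith
    have hBA : B (R p) ≤ A := by
      rw [hA]
      exact Finset.le_sup (f := id) (Finset.mem_image_of_mem (fun t => B (R t)) (hTS hp))
    refine hB _ C H hH ?_
    obtain ⟨α, P, h1, h2, h3, h4, h5⟩ := hT p hp
    refine ⟨α, P, h1, h2, h3, h4, h5.trans ?_⟩
    exact one_div_le_one_div_of_le (by positivity) (pow_le_pow_right₀ hH1 (by omega))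

/-- independence gives the answer -/
theorem outside {A : Type} [Field A] [Algebra A ℝ] (h : AlgebraicIndependent A numbers) :
    ¬ ∃ a b c d : A, zeta 2 * zeta 3 = algebraMap A ℝ a * zeta 2 + algebraMap A ℝ b * zeta 3 +
      algebraMap A ℝ c * zeta 4 + algebraMap A ℝ d * zeta 5 := by
  rintro ⟨a, b, c, d, hrel⟩
  rw [algebraicIndependent_iff] at h
  have h1 := h (poly ![5, -(5 * a), -(5 * b), -(2 * c), -(5 * d)]) (by
    rw [aeval_poly]
    rw [zeta_four] at hrel
    have e5 : algebraMap A ℝ 5 = 5 := map_ofNat _ 5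
    have e2 : algebraMap A ℝ 2 = 2 := map_ofNat _ 2
    simp only [numbers]
    simp
    rw [e5, e2]
    linear_combination 5 * hrel)
  have h2 := coeff_poly ![5, -(5 * a), -(5 * b), -(2 * c), -(5 * d)] 0
  rw [h1, MvPolynomial.coeff_zero] at h2
  have h3 : algebraMap A ℝ 5 = 0 := by
    have : (5 : A) = 0 := h2.symm
    rw [this, map_zero]
  rw [map_ofNat] at h3
  norm_num at h3

theorem outside_rat (h : AlgebraicIndependent ℚ numbers) :
    ¬ ∃ a b c d : ℚ, zeta 2 * zeta 3 = a * zeta 2 + b * zeta 3 + c * zeta 4 + d * zeta 5 := by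
  rintro ⟨a, b, c, d, hrel⟩
  exact outside h ⟨a, b, c, d, by simpa only [eq_ratCast] using hrel⟩

theorem outside_field {F : Subfield ℝ} (h : AlgebraicIndependent F numbers) : Outside F := by
  rintro ⟨a, ha, b, hb, c, hc, d, hd, hrel⟩
  exact outside h ⟨⟨a, ha⟩, ⟨b, hb⟩, ⟨c, hc⟩, ⟨d, hd⟩, hrel⟩

/-- (3) -/
theorem three (T : Finset (ℕ × ℚ)) (hT : ∀ p ∈ T, p ∈ Names) (hc : 3 ≤ T.card) (D : ℕ)
    (hn : ∀ C : ℕ, ∃ H : ℝ, 2 ≤ H ∧ ∀ p ∈ T, Near D H (1 / H ^ C) (Real.exp 1) (R p)) :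
    AlgebraicIndependent ℚ numbers := by
  choose h h2 h3 using hn
  have : Sc h := ⟨h2⟩
  have hind := indep h hT hc (D := D)
    (fun p hp => Filter.Eventually.of_forall fun n => h3 n p hp)
  have hZ : AlgebraicIndependent ℤ numbers := by
    rw [algebraicIndependent_iff]
    intro P hP
    by_contra hP0
    exact dep_of_int h hP0 hP hind
  have : Algebra.IsAlgebraic ℤ ℚ := IsLocalization.isAlgebraic ℚ (nonZeroDivisors ℤ)
  exact hZ.extendScalars ℚ

open Pool.Agent.Q163.LE Pool.Agent.J6H54.LF in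
/-- (4) -/
theorem four {F : Subfield ℝ} (hF : SimLiouville F) (T : Finset (ℕ × ℚ))
    (hT : ∀ p ∈ T, p ∈ Names ∧ p.1 ≠ 1) (hc : 3 ≤ T.card) (hT' : ∀ p ∈ T, OverE F (R p)) :
    AlgebraicIndependent F numbers := by
  classical
  have hcard : (T.image fun p : ℕ × ℚ => (p.1 - 1, p.2)).card = T.card := by
    refine Finset.card_image_of_injOn fun a ha b hb h => ?_
    have h1 := (hT a ha).1.2.1
    have h2 := (hT b hb).1.2.1
    simp only [Prod.mk.injEq] at h
    exact Prod.ext (by omega) h.2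
  have h1 := W_sub hF (T.image fun p : ℕ × ℚ => (p.1 - 1, p.2)) (by
    intro q hq
    obtain ⟨p, hp, rfl⟩ := Finset.mem_image.1 hq
    exact (hT p hp).1.2.2)
  have h2 : AlgebraicIndependent F (fun o : Option (Fin 3) => o.elim (Real.exp 1) y) := by
    refine indep_of_span h1 (fun o => ?_) (by simp [hcard, hc])
    have he : Real.exp 1 ∈ clK F (range fun o : Option (Fin 3) => o.elim (Real.exp 1) y) :=
      subset_clK _ ⟨none, rfl⟩
    cases o with
    | none => exact he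
    | some q =>
      obtain ⟨q, hq⟩ := q
      obtain ⟨p, hp, rfl⟩ := Finset.mem_image.1 hq
      obtain ⟨k, x⟩ := p
      obtain ⟨⟨h3, h4, h5⟩, h6⟩ := hT _ hp
      have h7 := hT' _ hp
      simp only at h3 h4 h5 h6
      have h8 : k - 1 ≠ 0 := by omega
      refine W_mem he h5 ?_ ?_
      · simp only
        rw [Kc, if_neg h8, Nat.sub_add_cancel h4]
        have hy : ∀ i, y i ∈ clF ((clK F (range fun o : Option (Fin 3) =>
            o.elim (Real.exp 1) y) : Subfield ℝ) : Set ℝ) := fun i => by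
          rw [cl_cl]
          exact subset_clK _ ⟨some i, rfl⟩
        have h9 := zeta_mem hy (k := k) (by
          rcases h3 with h3 | h3
          · exact absurd h3 h6
          · exact h3) (by omega)
        rw [cl_cl] at h9
        exact h9
      · simp only
        rw [Tl, if_neg h8, Nat.sub_add_cancel h4, ← R_eq (by omega) h5]
        exact clK_le (singleton_subset_iff.2 he) (mem_clK.2 h7)
  have h3 := h2.comp pos pos_inj
  rw [numbers_eq]
  exact h3

open Pool.Agent.Q163.LE in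
/-- **Near relations between `ζ(2)ζ(3), ζ(2), ζ(3), ζ(4), ζ(5)` against tails.** -/
theorem result :
    -- (1)
    (∀ S : Finset (ℕ × ℚ), (∀ p ∈ S, p ∈ Names) → ∀ D D' : ℕ, ∃ C : ℕ, ∀ H : ℝ, 2 ≤ H →
      RelNear D' H (1 / H ^ C) numbers → ∀ T ⊆ S,
        (∀ p ∈ T, Near D H (1 / H ^ C) (Real.exp 1) (R p)) → T.card ≤ 2) ∧
    -- (2)
    (∀ S : Finset (ℕ × ℚ), (∀ p ∈ S, p ∈ Names) → ∀ D : ℕ, ∃ C : ℕ, ∀ H : ℝ, 2 ≤ H →
      Small H (1 / H ^ C) → ∀ T ⊆ S,
        (∀ p ∈ T, Near D H (1 / H ^ C) (Real.exp 1) (R p)) → T.card ≤ 2) ∧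
    (∀ S : Finset (ℕ × ℚ), (∀ p ∈ S, p ∈ Names) → ∀ D : ℕ, ∃ C : ℕ, ∀ H : ℝ, 2 ≤ H →
      Small H (1 / H ^ C) → ∀ T ⊆ S,
        (∀ p ∈ T, Appr D H (1 / H ^ C) (R p)) → T.card ≤ 2) ∧
    -- (3)
    (∀ T : Finset (ℕ × ℚ), (∀ p ∈ T, p ∈ Names) → 3 ≤ T.card → ∀ D : ℕ,
      (∀ C : ℕ, ∃ H : ℝ, 2 ≤ H ∧ ∀ p ∈ T, Near D H (1 / H ^ C) (Real.exp 1) (R p)) →
        AlgebraicIndependent ℚ numbers ∧ ¬ ∃ a b c d : ℚ,
          zeta 2 * zeta 3 = a * zeta 2 + b * zeta 3 + c * zeta 4 + d * zeta 5) ∧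
    -- (4)
    SimLiouville liouvilleField ∧
    (∀ F : Subfield ℝ, SimLiouville F → ∀ T : Finset (ℕ × ℚ), (∀ p ∈ T, p ∈ Names ∧ p.1 ≠ 1) →
      3 ≤ T.card → (∀ p ∈ T, OverE F (R p)) → AlgebraicIndependent F numbers ∧ Outside F) :=
  ⟨one, two, two_appr, fun T hT hc D hn => ⟨three T hT hc D hn, outside_rat (three T hT hc D hn)⟩,
    Pool.Agent.J6H54.LF.liou_field,
    fun _ hF T hT hc hT' => ⟨four hF T hT hc hT', outside_field (four hF T hT hc hT')⟩⟩

end Pool.Agent.Results.MP_524521_nt.RelationsVersusTails
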